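import Pool.Agent.U89.TK.Main

/-!
# The case of free groups of arbitrary rank

Owner helper89.
-/

set_option autoImplicit false

namespace Pool.Agent.U89.TK

open Pool.Agent.Y462.SS (Wr Closed)
open Pool.Agent.Y110.FJ
open Pool.Agent.U89.DL

theorem c_hl {C : ∀ (G : Type) [Group G], Prop} (hC : ClosedE C) {B : Type} [Group B]
    [Finite (MulAut B)] (hB : C B) (Θ : Subgroup (MulAut B)) : C (Hl Θ) :=
  Pool.Agent.Y961.FJ.fin_sd hC.base B Θ Θ.subtype hB

theorem finite_aut (B : Type) [Group B] [IsCyclic B] : Finite (MulAut B) := by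
  have h : ∀ n : ℕ, Finite (ZMod n)ˣ := by
    intro n
    cases n with
    | zero => exact (inferInstance : Finite ℤˣ)
    | succ n => infer_instance
  have := h (Nat.card B)
  exact Finite.of_equiv _ (IsCyclic.mulAutMulEquiv B).symm.toEquiv

section free

variable {I : Type}

/-- the cyclic subgroup generated by a basis element -/
abbrev Zb (i : I) : Subgroup (FreeGroup I) := Subgroup.zpowers (FreeGroup.of i)

theorem mem_zb (i : I) : FreeGroup.of i ∈ Zb i := Subgroup.mem_zpowers _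

/-- the exponent sum of `i` -/
noncomputable def chi (i : I) : FreeGroup I →* Multiplicative ℤ := by
  classical
  exact FreeGroup.lift fun j => if j = i then Multiplicative.ofAdd 1 else 1

theorem chi_self (i : I) : chi i (FreeGroup.of i) = Multiplicative.ofAdd 1 := by
  simp [chi]

theorem chi_ne {i j : I} (h : j ≠ i) : chi i (FreeGroup.of j) = 1 := by
  simp [chi, h]

theorem ofAdd_one_ne : (Multiplicative.ofAdd 1 : Multiplicative ℤ) ≠ 1 := by
  intro h
  exact absurd (congrArg Multiplicative.toAdd h) (by simp)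

theorem zb_ne_bot (i : I) : Zb i ≠ ⊥ := by
  intro h
  have h1 : FreeGroup.of i ∈ (⊥ : Subgroup (FreeGroup I)) := h ▸ mem_zb i
  rw [Subgroup.mem_bot] at h1
  have h2 := chi_self i
  rw [h1, map_one] at h2
  exact ofAdd_one_ne h2.symm

theorem freeProd_zb : FreeProd (fun i : I => Zb i) := by
  refine ⟨?_, ?_⟩
  · rw [eq_top_iff, ← FreeGroup.closure_range_of I, Subgroup.closure_le]
    rintro _ ⟨i, rfl⟩
    exact le_iSup (fun i : I => Zb i) i (mem_zb i)
  · intro H _ f
    refine ⟨FreeGroup.lift fun i => f i ⟨FreeGroup.of i, mem_zb i⟩, ?_⟩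
    rintro i ⟨b, hb⟩
    obtain ⟨n, hn⟩ := Subgroup.mem_zpowers_iff.1 hb
    have e : (⟨b, hb⟩ : Zb i) = ⟨FreeGroup.of i, mem_zb i⟩ ^ n := Subtype.ext hn.symm
    show FreeGroup.lift _ b = _
    rw [e, map_zpow, ← hn, map_zpow, FreeGroup.lift_apply_of]

theorem closure_eq (p : I → Prop) :
    Subgroup.closure (FreeGroup.of '' {j | p j}) = ⨆ j, ⨆ (_ : p j), Zb j := by
  apply le_antisymm
  · rw [Subgroup.closure_le]
    rintro _ ⟨j, hj, rfl⟩
    exact le_iSup₂ (f := fun j (_ : p j) => Zb j) j hj (mem_zb j)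
  · refine iSup₂_le fun j hj => ?_
    rw [Subgroup.zpowers_le]
    exact Subgroup.subset_closure ⟨j, hj, rfl⟩

/-- `b ↦ b ^ ε` -/
def powAut (i : I) (ε : ℤˣ) : MulAut (Zb i) where
  toFun b := ⟨(b : FreeGroup I) ^ (ε : ℤ), Subgroup.zpow_mem _ b.2 _⟩
  invFun b := ⟨(b : FreeGroup I) ^ (ε : ℤ), Subgroup.zpow_mem _ b.2 _⟩
  left_inv b := Subtype.ext (by
    show ((b : FreeGroup I) ^ (ε : ℤ)) ^ (ε : ℤ) = b
    rw [← zpow_mul, ← Units.val_mul, Int.units_mul_self, Units.val_one, zpow_one])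
  right_inv b := Subtype.ext (by
    show ((b : FreeGroup I) ^ (ε : ℤ)) ^ (ε : ℤ) = b
    rw [← zpow_mul, ← Units.val_mul, Int.units_mul_self, Units.val_one, zpow_one])
  map_mul' b c := Subtype.ext (by
    show ((b : FreeGroup I) * c) ^ (ε : ℤ) = (b : FreeGroup I) ^ (ε : ℤ) * c ^ (ε : ℤ)
    obtain ⟨m, hm⟩ := Subgroup.mem_zpowers_iff.1 b.2
    obtain ⟨n, hn⟩ := Subgroup.mem_zpowers_iff.1 c.2
    refine Commute.mul_zpow ?_ _
    rw [← hm, ← hn]
    exact (Commute.refl (FreeGroup.of i)).zpow_zpow m n)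

end free

end Pool.Agent.U89.TK
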