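import Pool.Agent.U89.TK.Step

/-!
# Triangular actions on free products of finitely many groups

Owner helper89.
-/

set_option autoImplicit false

namespace Pool.Agent.U89.TK

open Pool.Agent.Y462.SS (Wr Closed)
open Pool.Agent.Y110.FJ

/-- `P` is the free product of its subgroups `B i` -/
structure FreeProd {P I : Type} [Group P] (B : I → Subgroup P) : Prop where
  gen : ⨆ i, B i = ⊤
  univ : ∀ (H : Type) [Group H] (f : ∀ i, B i →* H), ∃ φ : P →* H, ∀ i (b : B i), φ b = f i b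

/-- every element maps `B i` into a conjugate by an element of the subgroup generated by the `B j`,
`j < i`, and acts on `B i` by an element of `Θ i` up to this conjugation -/
def PTri {P I T : Type} [Group P] [Group T] [PartialOrder I] (B : I → Subgroup P)
    (Θ : ∀ i, Subgroup (MulAut (B i))) (α : T →* MulAut P) : Prop :=
  ∀ τ i, ∃ u ∈ ⨆ j, ⨆ (_ : j < i), B j, ∃ θ ∈ Θ i, ∀ b : B i, u⁻¹ * α τ b * u = (θ b : B i)

section sub

variable {P I : Type} [Group P] {B : I → Subgroup P}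

theorem le_sup {p : I → Prop} {i : I} (hi : p i) : B i ≤ ⨆ i, ⨆ (_ : p i), B i :=
  le_iSup₂ (f := fun i (_ : p i) => B i) i hi

theorem fp2_of (h : FreeProd B) (d : I) : FP2 (⨆ i, ⨆ (_ : i ≠ d), B i) (B d) := by
  classical
  have hle : ∀ i, i ≠ d → B i ≤ ⨆ i, ⨆ (_ : i ≠ d), B i := fun i hi => le_sup (B := B) hi
  refine ⟨?_, ?_⟩
  · rw [eq_top_iff, ← h.gen]
    refine iSup_le fun i => ?_
    by_cases hi : i = d
    · rw [hi]
      exact le_sup_right
    · exact (hle i hi).trans le_sup_left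
  · intro H _ f g
    obtain ⟨φ, hφ⟩ := h.univ H (fun i => if hi : i = d then
      g.comp (Subgroup.inclusion (le_of_eq (congrArg B hi))) else
      f.comp (Subgroup.inclusion (hle i hi)))
    refine ⟨φ, fun k => ?_, fun b => ?_⟩
    · have h1 : (⨆ i, ⨆ (_ : i ≠ d), B i) ≤ ((φ.comp (Subgroup.subtype _)).eqLocus f).map
          (Subgroup.subtype _) := by
        refine iSup₂_le fun i hi b hb => ?_
        refine ⟨⟨b, hle i hi hb⟩, ?_, rfl⟩
        show φ b = f ⟨b, hle i hi hb⟩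
        have h2 := hφ i ⟨b, hb⟩
        rw [dif_neg hi] at h2
        exact h2
      obtain ⟨k', hk', e⟩ := h1 k.2
      have e' : k' = k := Subtype.ext e
      rw [← e']
      exact hk'
    · have h2 := hφ d b
      rw [dif_pos rfl] at h2
      exact h2

/-- a subproduct is a free product -/
theorem fp_sub (h : FreeProd B) (p : I → Prop) (K : Subgroup P) (hK : K = ⨆ i, ⨆ (_ : p i), B i) :
    FreeProd (fun i : {i // p i} => (B i).subgroupOf K) := by
  classical
  have hle : ∀ i, p i → B i ≤ K := fun i hi => by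
    rw [hK]
    exact le_sup (B := B) hi
  refine ⟨?_, ?_⟩
  · rw [eq_top_iff]
    intro x _
    have h1 : K ≤ (⨆ i : {i // p i}, (B i).subgroupOf K).map K.subtype := by
      conv_lhs => rw [hK]
      refine iSup₂_le fun i hi b hb => ?_
      exact ⟨⟨b, hle i hi hb⟩, le_iSup (fun i : {i // p i} => (B i).subgroupOf K) ⟨i, hi⟩ hb, rfl⟩
    obtain ⟨x', hx', e⟩ := h1 x.2
    have e' : x' = x := Subtype.ext e
    rwa [e'] at hx'
  · intro H _ f
    let c : ∀ i (hi : p i), B i →* (B i).subgroupOf K := fun i hi =>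
      { toFun := fun b => ⟨⟨b, hle i hi b.2⟩, b.2⟩
        map_one' := rfl
        map_mul' := fun _ _ => rfl }
    obtain ⟨φ, hφ⟩ := h.univ H (fun i => if hi : p i then (f ⟨i, hi⟩).comp (c i hi) else 1)
    refine ⟨φ.comp K.subtype, fun i b => ?_⟩
    show φ (b : K) = f i b
    have h2 := hφ i ⟨(b : K), b.2⟩
    rw [dif_pos i.2] at h2
    exact h2

theorem sub_ne_bot {K B : Subgroup P} (hle : B ≤ K) (h : B ≠ ⊥) : B.subgroupOf K ≠ ⊥ := by
  intro h1
  apply h
  rw [Subgroup.eq_bot_iff_forall]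
  intro b hb
  have h2 : (⟨b, hle hb⟩ : K) ∈ B.subgroupOf K := hb
  rw [h1, Subgroup.mem_bot] at h2
  exact congrArg Subtype.val h2

theorem hol_congr {C : ∀ (G : Type) [Group G], Prop} (hC : ClosedE C) {M M' : Type} [Group M]
    [Group M'] (e : M ≃* M') (Θ : Subgroup (MulAut M')) (h : C (Hl Θ)) :
    C (Hl (Θ.comap (MulAut.congr e).toMonoidHom)) := by
  refine hC.base.of_injective _ (Hl Θ) (SemidirectProduct.map e.toMonoidHom
    ((MulAut.congr e).toMonoidHom.subgroupComap Θ) ?_) ?_ h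
  · intro g
    ext x
    show e ((g : MulAut M) x) = e ((g : MulAut M) (e.symm (e x)))
    rw [e.symm_apply_apply]
  · intro x y hxy
    have h1 : e x.left = e y.left := congrArg SemidirectProduct.left hxy
    have h2 : MulAut.congr e x.right = MulAut.congr e y.right :=
      congrArg (fun z => ((SemidirectProduct.right z : Θ) : MulAut M')) hxy
    exact SemidirectProduct.ext (e.injective h1) (Subtype.ext ((MulAut.congr e).injective h2))

/-- automorphisms of `B` as automorphisms of `B` in a larger subgroup `K` -/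
theorem exists_congr {K B : Subgroup P} (hle : B ≤ K) (Θ : Subgroup (MulAut B)) {θ : MulAut B}
    (hθ : θ ∈ Θ) : ∃ θ' ∈ Θ.comap (MulAut.congr (Subgroup.subgroupOfEquivOfLe hle)).toMonoidHom,
      ∀ b : B.subgroupOf K, (((θ' b : B.subgroupOf K) : K) : P) = θ ⟨(b : K), b.2⟩ := by
  refine ⟨(MulAut.congr (Subgroup.subgroupOfEquivOfLe hle)).symm θ, ?_, fun b => rfl⟩
  show MulAut.congr (Subgroup.subgroupOfEquivOfLe hle)
    ((MulAut.congr (Subgroup.subgroupOfEquivOfLe hle)).symm θ) ∈ Θ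
  rw [MulEquiv.apply_symm_apply]
  exact hθ

/-- the elements of the smaller factors as elements of a subproduct -/
theorem lt_sub {p : I → Prop} {K : Subgroup P} [PartialOrder I] (hle : ∀ i, p i → B i ≤ K)
    (i : {i // p i}) (hlt : ∀ j, j < i.1 → p j) {u : P} (hu : u ∈ ⨆ j, ⨆ (_ : j < i.1), B j) :
    ∃ v : K, (v : P) = u ∧ v ∈ ⨆ j : {i // p i}, ⨆ (_ : j < i), (B j).subgroupOf K := by
  have h1 : (⨆ j, ⨆ (_ : j < i.1), B j) ≤
      (⨆ j : {i // p i}, ⨆ (_ : j < i), (B j).subgroupOf K).map K.subtype := by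
    refine iSup₂_le fun j hj b hb => ?_
    refine ⟨⟨b, hle j (hlt j hj) hb⟩, ?_, rfl⟩
    exact le_iSup₂ (f := fun (j : {i // p i}) (_ : j < i) => (B j).subgroupOf K)
      ⟨j, hlt j hj⟩ hj hb
  obtain ⟨v, hv, e⟩ := h1 hu
  exact ⟨v, e, hv⟩

end sub

/-- **triangular actions on free products of finitely many groups** -/
theorem fin_tri {C : ∀ (G : Type) [Group G], Prop} (hC : ClosedE C) : ∀ (n : ℕ) (I P T : Type)
    [PartialOrder I] [Group P] [Group T] [Finite I], Nat.card I ≤ n → ∀ B : I → Subgroup P,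
    FreeProd B → (∀ i, B i ≠ ⊥) → ∀ Θ : (∀ i, Subgroup (MulAut (B i))), (∀ i, C (Hl (Θ i))) →
    ∀ α : T →* MulAut P, (∀ τ, α τ = 1 → τ = 1) → PTri B Θ α → C (P ⋊[α] T) := by
  intro n
  induction n with
  | zero =>
    intro I P T _ _ _ _ hn B h hne Θ hH α hf ht
    have hI : IsEmpty I := Finite.card_eq_zero_iff.1 (Nat.le_zero.1 hn)
    have h1 : (⊤ : Subgroup P) = ⊥ := by
      rw [← h.gen]
      exact iSup_of_empty _
    have h2 : ∀ x : P, x = 1 := fun x => by
      have : x ∈ (⊤ : Subgroup P) := Subgroup.mem_top x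
      rwa [h1, Subgroup.mem_bot] at this
    have h3 : ∀ τ : T, τ = 1 := fun τ => hf τ (by
      ext x
      rw [h2 (α τ x), h2 x, map_one])
    refine hC.base.of_injective _ (Multiplicative ℤ) 1 ?_ hC.base.int
    intro a b _
    exact SemidirectProduct.ext ((h2 _).trans (h2 _).symm) ((h3 _).trans (h3 _).symm)
  | succ n ih =>
    intro I P T _ _ _ _ hn B h hne Θ hH α hf ht
    by_cases hI : IsEmpty I
    · exact ih I P T (by rw [Finite.card_eq_zero_iff.2 hI]; exact Nat.zero_le n) B h hne Θ hH α hf ht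
    rw [not_isEmpty_iff] at hI
    obtain ⟨d, hd⟩ := (Set.finite_univ (α := I)).exists_maximal Set.univ_nonempty
    have hmax : ∀ i, ¬ d < i := fun i hi => hd.not_gt (Set.mem_univ i) hi
    obtain ⟨K, hKdef⟩ : ∃ K : Subgroup P, K = ⨆ i, ⨆ (_ : i ≠ d), B i := ⟨_, rfl⟩
    have hle : ∀ i, i ≠ d → B i ≤ K := fun i hi => by
      rw [hKdef]
      exact le_sup (B := B) hi
    have hlt : ∀ i j : I, j < i → j ≠ d := fun i j hj e => hmax i (e ▸ hj)
    have hleK : ∀ i, (⨆ j, ⨆ (_ : j < i), B j) ≤ K := fun i =>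
      iSup₂_le fun j hj => hle j (hlt i j hj)
    have hfp : FP2 K (B d) := by
      rw [hKdef]
      exact fp2_of h d
    have hK : ∀ τ, ∀ k ∈ K, α τ k ∈ K := by
      intro τ
      have h1 : K ≤ K.comap (α τ).toMonoidHom := by
        conv_lhs => rw [hKdef]
        refine iSup₂_le fun i hi b hb => ?_
        show α τ b ∈ K
        obtain ⟨u, hu, θ, hθ, hub⟩ := ht τ i
        have e : α τ b = u * (u⁻¹ * α τ b * u) * u⁻¹ := by group
        rw [e, hub ⟨b, hb⟩]
        exact K.mul_mem (K.mul_mem (hleK i hu) (hle i hi (θ ⟨b, hb⟩).2)) (K.inv_mem (hleK i hu))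
      exact fun k hk => h1 hk
    have hB : ∀ τ, ∃ u ∈ K, ∃ θ ∈ Θ d, ∀ b : B d, u⁻¹ * α τ b * u = (θ b : B d) := by
      intro τ
      obtain ⟨u, hu, hub⟩ := ht τ d
      exact ⟨u, hleK d hu, hub⟩
    refine step hC hfp (hne d) α hf hK (Θ d) hB ?_ (hH d)
    refine ih {i // i ≠ d} K (res α hK).range ?_ (fun i => (B i).subgroupOf K)
      (fp_sub h _ K hKdef) (fun i => sub_ne_bot (hle i i.2) (hne i))
      (fun i => (Θ i).comap (MulAut.congr (Subgroup.subgroupOfEquivOfLe (hle i i.2))).toMonoidHom)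
      (fun i => hol_congr hC (Subgroup.subgroupOfEquivOfLe (hle i i.2)) (Θ i) (hH i)) _ ?_ ?_
    · have h1 : Nat.card {i // i ≠ d} < Nat.card I := Finite.card_subtype_lt (x := d) (by simp)
      omega
    · intro τ hτ
      exact Subtype.ext hτ
    · rintro ⟨_, ⟨τ, rfl⟩⟩ i
      obtain ⟨u, hu, θ, hθ, hub⟩ := ht τ i
      obtain ⟨v, hv, hv2⟩ := lt_sub hle i (fun j hj => hlt i j hj) hu
      obtain ⟨θ', hθ', h3⟩ := exists_congr (hle i i.2) (Θ i) hθ
      refine ⟨v, hv2, θ', hθ', fun b => ?_⟩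
      apply Subtype.ext
      show ((v : P))⁻¹ * α τ (b : K) * v = ((θ' b : (B i).subgroupOf K) : K)
      rw [hv, h3 b]
      exact hub ⟨(b : K), b.2⟩

end Pool.Agent.U89.TK
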