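import Pool.Agent.U89.TK.Ind
import Pool.Agent.U89.DL.Main

/-!
# Extensions by groups of finitely supported triangular automorphisms of free products

Owner helper89.
-/

set_option autoImplicit false

namespace Pool.Agent.U89.TK

open Pool.Agent.Y462.SS (Wr Closed)
open Pool.Agent.Y110.FJ
open Pool.Agent.U89.DL

/-- `g` maps `B i` into `u B (g i) u⁻¹` where `u` is in the subgroup generated by the `B j` with
`j < g i`; if `g i = i` then `b ↦ u⁻¹ g(b) u` is in the given group `Θ i` of automorphisms of `B i` -/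
def Triangular {P I G : Type} [Group P] [Group G] [PartialOrder I] (B : I → Subgroup P)
    (Θ : ∀ i, Subgroup (MulAut (B i))) (α : G →* MulAut P) (π : G →* Equiv.Perm I) : Prop :=
  ∀ g i, ∃ u ∈ ⨆ j, ⨆ (_ : j < π g i), B j, (∀ b ∈ B i, u⁻¹ * α g b * u ∈ B (π g i)) ∧
    (π g i = i → ∃ θ ∈ Θ i, ∀ b : B i, u⁻¹ * α g b * u = (θ b : B i))

section

variable {P I G : Type} [Group P] [Group G] [PartialOrder I] {B : I → Subgroup P}
  {Θ : ∀ i, Subgroup (MulAut (B i))} {α : G →* MulAut P} {π : G →* Equiv.Perm I}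

omit [PartialOrder I] in
theorem exists_del (h : FreeProd B) : ∃ e : Finset I → P →* P, Deletions B e := by
  classical
  have h1 : ∀ D : Finset I, ∃ φ : P →* P, ∀ i (b : B i), φ b =
      (if i ∈ D then (B i).subtype else 1 : B i →* P) b := fun D =>
    h.univ P (fun i => if i ∈ D then (B i).subtype else 1)
  choose e he using h1
  refine ⟨e, h.gen, fun D i hi b hb => ?_, fun D i hi b hb => ?_⟩
  · have h2 := he D i ⟨b, hb⟩
    rw [if_pos hi] at h2
    exact h2
  · have h2 := he D i ⟨b, hb⟩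
    rw [if_neg hi] at h2
    exact h2

omit [PartialOrder I] in
theorem range_e {e : Finset I → P →* P} (hd : Deletions B e) (D : Finset I) :
    (e D).range = ⨆ i, ⨆ (_ : i ∈ D), B i := by
  apply le_antisymm
  · rw [MonoidHom.range_eq_map, ← hd.gen, Subgroup.map_iSup]
    refine iSup_le fun i => ?_
    rintro _ ⟨b, hb, rfl⟩
    by_cases hi : i ∈ D
    · rw [hd.keep D i hi b hb]
      exact le_iSup₂ (f := fun i (_ : i ∈ D) => B i) i hi hb
    · rw [hd.kill D i hi b hb]
      exact one_mem _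
  · refine iSup₂_le fun i hi b hb => ?_
    exact ⟨b, hd.keep D i hi b hb⟩

/-- the subgroup of the elements which fix all points of `D` -/
def fixHom (π : G →* Equiv.Perm I) (D : Finset I) :
    ↥(Stb (piF π) D) →* Equiv.Perm {i // i ∈ D} where
  toFun x := (π x).subtypePerm (fun i => by
    have h1 := mem_piF (π := π) (g := (x : G)) (D := D) (i := i)
    rw [show piF π x D = D from x.2] at h1
    exact h1)
  map_one' := by
    ext i
    show π ((1 : ↥(Stb (piF π) D)) : G) i = i
    rw [Subgroup.coe_one, map_one]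
    rfl
  map_mul' x y := by
    ext i
    show π ((x * y : ↥(Stb (piF π) D)) : G) i = π x (π y i)
    rw [Subgroup.coe_mul, map_mul]
    rfl

theorem local_c {C : ∀ (G : Type) [Group G], Prop} (hC : ClosedE C) (h : FreeProd B)
    (hne : ∀ i, B i ≠ ⊥) (hH : ∀ i, C (Hl (Θ i))) (ht : Triangular B Θ α π)
    {e : Finset I → P →* P} (hd : Deletions B e) (hs : Symmetric B α π) (D : Finset I) :
    C ↥(ind hd hs D).range := by
  classical
  let R : Subgroup (MulAut ↥(e D).range) := (ind hd hs D).range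
  let PS : Subgroup ↥(Stb (piF π) D) := (fixHom π D).ker
  let R₀ : Subgroup R := PS.map (ind hd hs D).rangeRestrict
  have hfi : R₀.FiniteIndex := by
    refine ⟨fun h0 => ?_⟩
    have h1 : R₀.index ∣ PS.index :=
      Subgroup.index_map_dvd (H := PS) (ind hd hs D).rangeRestrict_surjective
    rw [h0, zero_dvd_iff] at h1
    have h2 : PS.FiniteIndex := Subgroup.finiteIndex_ker (fixHom π D)
    exact h2.index_ne_zero h1
  refine hC.base.finiteIndex R R₀ hfi ?_
  have hK : (e D).range = ⨆ i, ⨆ (_ : i ∈ D), B i := range_e hd D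
  have hle : ∀ i, i ∈ D → B i ≤ (e D).range := fun i hi b hb => ⟨b, hd.keep D i hi b hb⟩
  let a : ↥R₀ →* MulAut ↥(e D).range := R.subtype.comp R₀.subtype
  have key : C (↥(e D).range ⋊[a] ↥R₀) := by
    refine fin_tri hC (Nat.card {i // i ∈ D}) {i // i ∈ D} ↥(e D).range ↥R₀ le_rfl
      (fun i => (B i).subgroupOf (e D).range) (fp_sub h _ _ hK)
      (fun i => sub_ne_bot (hle i i.2) (hne i))
      (fun i => (Θ i).comap (MulAut.congr (Subgroup.subgroupOfEquivOfLe (hle i i.2))).toMonoidHom)
      (fun i => hol_congr hC (Subgroup.subgroupOfEquivOfLe (hle i i.2)) (Θ i) (hH i)) a ?_ ?_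
    · intro τ hτ
      exact Subtype.ext (Subtype.ext hτ)
    · rintro ⟨_, ⟨x, hx, rfl⟩⟩ i
      have hxi : π x i = i := by
        have h1 : fixHom π D x = 1 := hx
        exact congrArg (fun z : Equiv.Perm {i // i ∈ D} => ((z i : {i // i ∈ D}) : I)) h1
      obtain ⟨u, hu, -, hub'⟩ := ht x i
      obtain ⟨θ, hθ, hub⟩ := hub' hxi
      rw [hxi] at hu
      obtain ⟨θ', hθ', h3⟩ := exists_congr (hle i i.2) (Θ i) hθ
      have h1 : (⨆ j, ⨆ (_ : j < i.1), B j) ≤ ((⨆ j : {i // i ∈ D}, ⨆ (_ : j < i),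
          (B j).subgroupOf (e D).range).map (e D).range.subtype).comap (e D) := by
        refine iSup₂_le fun j hj b hb => ?_
        show e D b ∈ (⨆ j : {i // i ∈ D}, ⨆ (_ : j < i),
          (B j).subgroupOf (e D).range).map (e D).range.subtype
        by_cases hjD : j ∈ D
        · rw [hd.keep D j hjD b hb]
          refine ⟨⟨b, hle j hjD hb⟩, ?_, rfl⟩
          exact le_iSup₂ (f := fun (j : {i // i ∈ D}) (_ : j < i) =>
            (B j).subgroupOf (e D).range) ⟨j, hjD⟩ hj hb
        · rw [hd.kill D j hjD b hb]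
          exact one_mem _
      obtain ⟨v, hv, hvu⟩ := h1 hu
      refine ⟨v, hv, θ', hθ', fun b => ?_⟩
      apply Subtype.ext
      show (v : P)⁻¹ * e D (α x (b : ↥(e D).range)) * v =
        ((θ' b : (B i).subgroupOf (e D).range) : ↥(e D).range)
      have hvu' : (v : P) = e D u := hvu
      have e1 : (v : P)⁻¹ * e D (α x (b : ↥(e D).range)) * v =
          e D (u⁻¹ * α x (b : ↥(e D).range) * u) := by
        rw [hvu', map_mul, map_mul, map_inv]
      have e2 : u⁻¹ * α x ((b : ↥(e D).range) : P) * u = (θ ⟨(b : ↥(e D).range), b.2⟩ : B i) :=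
        hub ⟨(b : ↥(e D).range), b.2⟩
      rw [e1, h3 b, e2]
      exact hd.keep D i i.2 _ (θ ⟨(b : ↥(e D).range), b.2⟩).2
  exact hC.base.of_injective _ _ (SemidirectProduct.inr : ↥R₀ →* ↥(e D).range ⋊[a] ↥R₀)
    SemidirectProduct.inr_injective key

/-- **extensions by groups of finitely supported triangular automorphisms of a free product** -/
theorem main {C : ∀ (G : Type) [Group G], Prop} (hC : ClosedE C) (h : FreeProd B)
    (hne : ∀ i, B i ≠ ⊥) (hH : ∀ i, C (Hl (Θ i))) (ht : Triangular B Θ α π)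
    (N : Subgroup G) [N.Normal] (hN : AlmostTrivial N B α π) (hQ : C (G ⧸ N)) : C G := by
  obtain ⟨e, hd⟩ := exists_del h
  have hs : Symmetric B α π := by
    intro g i
    obtain ⟨u, -, hu, -⟩ := ht g i
    exact ⟨u, hu⟩
  refine Pool.Agent.U89.DL.main hC hd hs N hN hQ (fun D g => ?_)
  have h1 : Induced e α D ((N ⊔ Subgroup.zpowers g) ⊓ Stb (piF π) D) ≤ (ind hd hs D).range := by
    unfold Induced
    rw [Subgroup.closure_le]
    rintro a ⟨x, hx, ha⟩
    refine ⟨⟨x, hx.2⟩, ?_⟩
    ext y
    exact (ha y).symm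
  exact hC.base.of_injective _ _ (Subgroup.inclusion h1) (Subgroup.inclusion_injective h1)
    (local_c hC h hne hH ht hd hs D)

end

end Pool.Agent.U89.TK
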