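import Pool.Agent.U89.TK.Free

/-!
# The permutation of the factors is determined by the action

Owner helper89.
-/

set_option autoImplicit false

namespace Pool.Agent.U89.TK

open Pool.Agent.Y462.SS (Wr Closed)
open Pool.Agent.Y110.FJ
open Pool.Agent.U89.DL

/-- each `g` maps each `B i` into `u (B k) u⁻¹` for some `k` and some `u` in the subgroup generated by
the `B j` with `j < k`; if `k = i` then `b ↦ u⁻¹ g(b) u` is in the given group `Θ i` of automorphisms of
`B i` -/
def Triangular' {P I G : Type} [Group P] [Group G] [PartialOrder I] (B : I → Subgroup P)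
    (Θ : ∀ i, Subgroup (MulAut (B i))) (α : G →* MulAut P) : Prop :=
  ∀ g i, ∃ k, ∃ u ∈ ⨆ j, ⨆ (_ : j < k), B j, (∀ b ∈ B i, u⁻¹ * α g b * u ∈ B k) ∧
    (k = i → ∃ θ ∈ Θ i, ∀ b : B i, u⁻¹ * α g b * u = (θ b : B i))

section

variable {P I G : Type} [Group P] [Group G] {B : I → Subgroup P}

theorem uniq_idx (h : FreeProd B) {x u v : P} {k l : I} (hx : x ≠ 1) (hk : u⁻¹ * x * u ∈ B k)
    (hl : v⁻¹ * x * v ∈ B l) : k = l := by
  classical
  obtain ⟨e, hd⟩ := exists_del h
  by_contra hkl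
  apply hx
  have h1 : e {k} (v⁻¹ * x * v) = 1 :=
    hd.kill {k} l (fun hm => hkl (Finset.mem_singleton.1 hm).symm) _ hl
  have h2 : e {k} x = 1 := by
    have e1 : x = v * (v⁻¹ * x * v) * v⁻¹ := by group
    rw [e1, map_mul, map_mul, h1, mul_one, map_inv, mul_inv_cancel]
  have h3 : e {k} (u⁻¹ * x * u) = u⁻¹ * x * u :=
    hd.keep {k} k (Finset.mem_singleton_self k) _ hk
  rw [map_mul, map_mul, h2, mul_one, map_inv, inv_mul_cancel] at h3
  have e1 : x = u * (u⁻¹ * x * u) * u⁻¹ := by group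
  rw [e1, ← h3]
  group

variable [PartialOrder I] {Θ : ∀ i, Subgroup (MulAut (B i))} {α : G →* MulAut P}

theorem exists_perm (h : FreeProd B) (hne : ∀ i, B i ≠ ⊥) (ht : Triangular' B Θ α) :
    ∃ π : G →* Equiv.Perm I, Triangular B Θ α π := by
  have hb : ∀ i, ∃ b ∈ B i, b ≠ 1 := by
    intro i
    by_contra hcon
    push Not at hcon
    exact hne i ((Subgroup.eq_bot_iff_forall _).2 hcon)
  choose k u hu h1 h2 using ht
  let f : G →* Function.End I :=
    { toFun := k
      map_one' := by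
        funext i
        show k 1 i = i
        obtain ⟨b, hbi, hb1⟩ := hb i
        refine uniq_idx h hb1 (u := u 1 i) (v := 1) ?_ (by simpa using hbi)
        have h3 := h1 1 i b hbi
        rwa [map_one, MulAut.one_apply] at h3
      map_mul' := by
        intro g g'
        funext i
        show k (g * g') i = k g (k g' i)
        obtain ⟨b, hbi, hb1⟩ := hb i
        refine uniq_idx h (x := α (g * g') b) (u := u (g * g') i)
          (v := α g (u g' i) * u g (k g' i)) ?_ (h1 (g * g') i b hbi) ?_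
        · exact fun h3 => hb1 ((map_eq_one_iff _ (α (g * g')).injective).1 h3)
        · have h3 := h1 g (k g' i) _ (h1 g' i b hbi)
          have e : (α g (u g' i) * u g (k g' i))⁻¹ * α (g * g') b * (α g (u g' i) * u g (k g' i)) =
              (u g (k g' i))⁻¹ * α g ((u g' i)⁻¹ * α g' b * u g' i) * u g (k g' i) := by
            rw [map_mul, MulAut.mul_apply, map_mul, map_mul, map_inv]
            group
          rw [e]
          exact h3 }
  exact ⟨f.toHomPerm, fun g i => ⟨u g i, hu g i, h1 g i, h2 g i⟩⟩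

/-- **the main theorem without the permutations** -/
theorem main' {C : ∀ (G : Type) [Group G], Prop} (hC : ClosedE C) (h : FreeProd B)
    (hne : ∀ i, B i ≠ ⊥) (hH : ∀ i, C (B i ⋊[(Θ i).subtype] Θ i)) (ht : Triangular' B Θ α)
    (N : Subgroup G) [N.Normal] (hfin : ∀ n ∈ N, {i | ∃ b ∈ B i, α n b ≠ b}.Finite)
    (hf : ∀ n ∈ N, α n = 1 → n = 1) (hQ : C (G ⧸ N)) : C G := by
  obtain ⟨π, hπ⟩ := exists_perm h hne ht
  refine main hC h hne hH hπ N ⟨fun n hn => (hfin n hn).subset ?_, hf⟩ hQ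
  rintro i (hi | hi)
  · by_contra hcon
    apply hi
    have hcon' : ∀ b ∈ B i, α n b = b := by
      intro b hb
      by_contra h3
      exact hcon ⟨b, hb, h3⟩
    obtain ⟨b, hb, hb1⟩ : ∃ b ∈ B i, b ≠ 1 := by
      by_contra hcon
      push Not at hcon
      exact hne i ((Subgroup.eq_bot_iff_forall _).2 hcon)
    obtain ⟨u, -, hu, -⟩ := hπ n i
    have h3 := hu b hb
    rw [hcon' b hb] at h3
    exact uniq_idx h hb1 h3 (v := 1) (by simpa using hb)
  · exact hi

end

/-- free groups -/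
theorem main_free' {C : ∀ (G : Type) [Group G], Prop} (hC : ClosedE C) {I G : Type}
    [PartialOrder I] [Group G] (α : G →* MulAut (FreeGroup I))
    (ht : ∀ g i, ∃ k, ∃ u ∈ Subgroup.closure (FreeGroup.of '' {j | j < k}), ∃ ε : ℤˣ,
      α g (FreeGroup.of i) = u * FreeGroup.of k ^ (ε : ℤ) * u⁻¹)
    (N : Subgroup G) [N.Normal] (hfin : ∀ n ∈ N, {i | α n (FreeGroup.of i) ≠ FreeGroup.of i}.Finite)
    (hf : ∀ n ∈ N, α n = 1 → n = 1) (hQ : C (G ⧸ N)) : C G := by
  have hcyc : ∀ g i k, ∀ b ∈ Zb i, ∀ u : FreeGroup I, ∀ ε : ℤˣ,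
      α g (FreeGroup.of i) = u * FreeGroup.of k ^ (ε : ℤ) * u⁻¹ →
      ∃ n : ℤ, b = FreeGroup.of i ^ n ∧
        u⁻¹ * α g b * u = (FreeGroup.of k ^ (ε : ℤ)) ^ n := by
    intro g i k b hb u ε h
    obtain ⟨n, hn⟩ := Subgroup.mem_zpowers_iff.1 hb
    refine ⟨n, hn.symm, ?_⟩
    rw [← hn, map_zpow, h, conj_zpow]
    group
  refine main' hC (freeProd_zb (I := I)) zb_ne_bot (Θ := fun i => ⊤) (α := α)
    (fun i => ?_) ?_ N (fun n hn => (hfin n hn).subset ?_) hf hQ
  · have h1 : Finite (MulAut (Zb i)) := finite_aut _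
    exact c_hl hC (hC.base.of_injective _ _ (Zb i).subtype (Subgroup.subtype_injective _)
      (Pool.Agent.Y179.SS.t_free C hC.base I)) _
  · intro g i
    obtain ⟨k, u, hu, ε, h⟩ := ht g i
    rw [closure_eq] at hu
    refine ⟨k, u, hu, fun b hb => ?_, fun hgi => ⟨powAut i ε, Subgroup.mem_top _, fun b => ?_⟩⟩
    · obtain ⟨n, -, e⟩ := hcyc g i k b hb u ε h
      rw [e]
      exact Subgroup.zpow_mem _ (Subgroup.zpow_mem _ (mem_zb _) _) _
    · obtain ⟨n, e1, e⟩ := hcyc g i k b b.2 u ε h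
      rw [e]
      show _ = (b : FreeGroup I) ^ (ε : ℤ)
      rw [hgi, e1, ← zpow_mul, ← zpow_mul, mul_comm]
  · rintro i ⟨b, hb, hbi⟩ h
    obtain ⟨m, hm⟩ := Subgroup.mem_zpowers_iff.1 hb
    apply hbi
    rw [← hm, map_zpow, h]

end Pool.Agent.U89.TK
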