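import Pool.Agent.U89.TK.Two

/-!
# One step: a group which maps one factor into a conjugate by the other factor

Owner helper89.
-/

set_option autoImplicit false

namespace Pool.Agent.U89.TK

open Pool.Agent.Y462.SS (Wr Closed)
open Pool.Agent.Y110.FJ
open Pool.Agent.Y961.FJ (conj_inr)

/-- the semidirect product of `B` with a group of automorphisms of `B` -/
abbrev Hl {B : Type} [Group B] (Θ : Subgroup (MulAut B)) : Type := B ⋊[Θ.subtype] Θ

theorem c_aut {C : ∀ (G : Type) [Group G], Prop} (hC : ClosedE C) {B : Type} [Group B]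
    (Θ : Subgroup (MulAut B)) (h : C (Hl Θ)) : C Θ :=
  hC.base.of_injective _ _ (SemidirectProduct.inr : Θ →* Hl Θ)
    SemidirectProduct.inr_injective h

section step

variable {P T : Type} [Group P] [Group T] {K B : Subgroup P}

/-- the conjugating elements, chosen in `K` -/
theorem exists_u (h : FP2 K B) (hne : B ≠ ⊥) (α : T →* MulAut P)
    (hK : ∀ τ, ∀ k ∈ K, α τ k ∈ K) (Θ : Subgroup (MulAut B))
    (hB : ∀ τ, ∃ u ∈ K, ∃ θ ∈ Θ, ∀ b : B, u⁻¹ * α τ b * u = (θ b : B)) :
    ∃ u : T → P, (∀ τ, u τ ∈ K) ∧ (∀ τ, ∀ b ∈ B, (u τ)⁻¹ * α τ b * u τ ∈ B) ∧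
      (∀ σ τ, u (σ * τ) = α σ (u τ) * u σ) ∧
      ∀ τ, ∃ θ ∈ Θ, ∀ b : B, (u τ)⁻¹ * α τ b * u τ = (θ b : B) := by
  choose u hu θ hθ hu1 using hB
  have hu2 : ∀ τ, ∀ b ∈ B, (u τ)⁻¹ * α τ b * u τ ∈ B := by
    intro τ b hb
    rw [hu1 τ ⟨b, hb⟩]
    exact (θ τ ⟨b, hb⟩).2
  obtain ⟨b, hb, hb1⟩ : ∃ b ∈ B, b ≠ 1 := by
    by_contra hcon
    push Not at hcon
    exact hne ((Subgroup.eq_bot_iff_forall B).2 hcon)
  have huniq : ∀ τ, ∀ v ∈ K, (∀ b ∈ B, v⁻¹ * α τ b * v ∈ B) → u τ = v := by
    intro τ v hv hv2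
    have h1 : (v⁻¹ * u τ) * ((u τ)⁻¹ * α τ b * u τ) * (v⁻¹ * u τ)⁻¹ ∈ B := by
      have e : (v⁻¹ * u τ) * ((u τ)⁻¹ * α τ b * u τ) * (v⁻¹ * u τ)⁻¹ = v⁻¹ * α τ b * v := by
        group
      rw [e]
      exact hv2 b hb
    have h2 : (u τ)⁻¹ * α τ b * u τ ≠ 1 := by
      intro h3
      apply hb1
      have h4 : α τ b = 1 := by
        have e : α τ b = u τ * ((u τ)⁻¹ * α τ b * u τ) * (u τ)⁻¹ := by group
        rw [e, h3]
        group
      exact (map_eq_one_iff (α τ) (α τ).injective).1 h4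
    have h3 := h.uniq (K.mul_mem (K.inv_mem hv) (hu τ)) (hu2 τ b hb) h2 h1
    rw [inv_mul_eq_one] at h3
    exact h3.symm
  refine ⟨u, hu, hu2, fun σ τ => ?_, fun τ => ⟨θ τ, hθ τ, hu1 τ⟩⟩
  refine huniq (σ * τ) _ (K.mul_mem (hK σ _ (hu τ)) (hu σ)) (fun b hb => ?_)
  have e : (α σ (u τ) * u σ)⁻¹ * α (σ * τ) b * (α σ (u τ) * u σ) =
      (u σ)⁻¹ * α σ ((u τ)⁻¹ * α τ b * u τ) * u σ := by
    rw [map_mul, MulAut.mul_apply, map_mul, map_mul, map_inv]
    group
  rw [e]
  exact hu2 σ _ (hu2 τ b hb)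

/-- the step -/
theorem step {C : ∀ (G : Type) [Group G], Prop} (hC : ClosedE C) (h : FP2 K B) (hne : B ≠ ⊥)
    (α : T →* MulAut P) (hf : ∀ τ, α τ = 1 → τ = 1)
    (hK : ∀ τ, ∀ k ∈ K, α τ k ∈ K) (Θ : Subgroup (MulAut B))
    (hB : ∀ τ, ∃ u ∈ K, ∃ θ ∈ Θ, ∀ b : B, u⁻¹ * α τ b * u = (θ b : B))
    (h1 : C (K ⋊[(res α hK).range.subtype] (res α hK).range)) (h2 : C (Hl Θ)) :
    C (P ⋊[α] T) := by
  obtain ⟨u, hu, hu2, hu3, hu4⟩ := exists_u h hne α hK Θ hB
  -- the normalized action
  let α' : T →* MulAut P :=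
    { toFun := fun τ => MulAut.conj (u τ)⁻¹ * α τ
      map_one' := by
        have e := hu3 1 1
        rw [map_one, MulAut.one_apply, one_mul] at e
        have e2 : u 1 = 1 := by
          have : u 1 * u 1 = u 1 * 1 := by rw [← e, mul_one]
          exact mul_left_cancel this
        rw [e2, map_one, inv_one, map_one, one_mul]
      map_mul' := by
        intro σ τ
        ext x
        show (u (σ * τ))⁻¹ * α (σ * τ) x * (u (σ * τ))⁻¹⁻¹ =
          (u σ)⁻¹ * α σ ((u τ)⁻¹ * α τ x * (u τ)⁻¹⁻¹) * (u σ)⁻¹⁻¹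
        rw [hu3, map_mul, MulAut.mul_apply, map_mul, map_mul, map_inv, map_inv, map_inv]
        group }
  have ha' : ∀ τ x, α' τ x = (u τ)⁻¹ * α τ x * u τ := by
    intro τ x
    show (u τ)⁻¹ * α τ x * (u τ)⁻¹⁻¹ = _
    rw [inv_inv]
  have hK' : ∀ τ, ∀ k ∈ K, α' τ k ∈ K := by
    intro τ k hk
    rw [ha']
    exact K.mul_mem (K.mul_mem (K.inv_mem (hu τ)) (hK τ k hk)) (hu τ)
  have hB' : ∀ τ, ∀ b ∈ B, α' τ b ∈ B := by
    intro τ b hb
    rw [ha']
    exact hu2 τ b hb
  have hΘ : ∀ τ, res α' hB' τ ∈ Θ := by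
    intro τ
    obtain ⟨θ, hθ, hθ2⟩ := hu4 τ
    have e : res α' hB' τ = θ := by
      ext b
      rw [← hθ2, ← ha']
      rfl
    rw [e]
    exact hθ
  let j : T →* K ⋊[(res α hK).range.subtype] (res α hK).range :=
    { toFun := fun τ => ⟨⟨(u τ)⁻¹, K.inv_mem (hu τ)⟩, ⟨res α hK τ, τ, rfl⟩⟩
      map_one' := by
        refine SemidirectProduct.ext ?_ ?_
        · apply Subtype.ext
          show (u 1)⁻¹ = 1
          have e := hu3 1 1
          rw [map_one, MulAut.one_apply, one_mul] at e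
          have : u 1 * u 1 = u 1 * 1 := by rw [← e, mul_one]
          rw [mul_left_cancel this, inv_one]
        · exact Subtype.ext (map_one _)
      map_mul' := by
        intro σ τ
        refine SemidirectProduct.ext ?_ ?_
        · apply Subtype.ext
          show (u (σ * τ))⁻¹ = (u σ)⁻¹ * α σ (u τ)⁻¹
          rw [hu3, map_inv]
          group
        · exact Subtype.ext (map_mul _ _ _) }
  have hT : C T := by
    refine hC.base.of_injective _ _ (j.prod ((res α' hB').codRestrict Θ hΘ)) ?_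
      (hC.base.prod _ _ h1 (c_aut hC Θ h2))
    rw [injective_iff_map_eq_one]
    intro τ hτ
    have e1 : j τ = 1 := congrArg Prod.fst hτ
    have e2 : res α' hB' τ = 1 := congrArg (fun z => ((Prod.snd z : Θ) : MulAut B)) hτ
    have e3 : (u τ)⁻¹ = 1 := congrArg (fun z => ((SemidirectProduct.left z : K) : P)) e1
    have e4 : res α hK τ = 1 := congrArg
      (fun z => ((SemidirectProduct.right z : (res α hK).range) : MulAut K)) e1
    apply hf
    ext x
    rw [MulAut.one_apply]
    refine h.ext (φ := (α τ).toMonoidHom) (ψ := MonoidHom.id P) (fun k hk => ?_)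
      (fun b hb => ?_) x
    · exact congrArg (fun z : MulAut K => ((z ⟨k, hk⟩ : K) : P)) e4
    · have e5 : α' τ b = b := congrArg (fun z : MulAut B => ((z ⟨b, hb⟩ : B) : P)) e2
      rw [ha', inv_eq_one.1 e3, inv_one, one_mul, mul_one] at e5
      exact e5
  have hKT : C (K ⋊[res α' hK'] T) := by
    have hc : ∀ τ, (SemidirectProduct.inl : K →* K ⋊[(res α hK).range.subtype]
        (res α hK).range).comp (res α' hK' τ).toMonoidHom =
        (MulAut.conj (j τ)).toMonoidHom.comp SemidirectProduct.inl := by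
      intro τ
      apply MonoidHom.ext
      intro k
      show (SemidirectProduct.inl (res α' hK' τ k) : K ⋊[(res α hK).range.subtype]
        (res α hK).range) = j τ * SemidirectProduct.inl k * (j τ)⁻¹
      rw [eq_mul_inv_iff_mul_eq]
      refine SemidirectProduct.ext ?_ ?_
      · apply Subtype.ext
        show α' τ k * (u τ)⁻¹ = (u τ)⁻¹ * α τ k
        rw [ha']
        group
      · apply Subtype.ext
        show 1 * res α hK τ = res α hK τ * 1
        rw [one_mul, mul_one]
    refine hC.base.of_injective _ _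
      ((SemidirectProduct.lift SemidirectProduct.inl j hc).prod SemidirectProduct.rightHom) ?_
      (hC.base.prod _ _ h1 hT)
    rw [injective_iff_map_eq_one]
    intro p hp
    have e2 : p.right = 1 := congrArg Prod.snd hp
    have e1 : (SemidirectProduct.inl p.left : K ⋊[(res α hK).range.subtype]
      (res α hK).range) * j p.right = 1 := congrArg Prod.fst hp
    rw [e2, map_one, mul_one] at e1
    refine SemidirectProduct.ext ?_ e2
    exact SemidirectProduct.inl_injective (e1.trans (map_one _).symm)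
  have hP := amal hC h α' hK' hB' Θ hΘ hKT h2
  -- back to the original action
  let q : T →* P ⋊[α'] T :=
    { toFun := fun τ => ⟨u τ, τ⟩
      map_one' := by
        refine SemidirectProduct.ext ?_ rfl
        show u 1 = 1
        have e := hu3 1 1
        rw [map_one, MulAut.one_apply, one_mul] at e
        have : u 1 * u 1 = u 1 * 1 := by rw [← e, mul_one]
        exact mul_left_cancel this
      map_mul' := by
        intro σ τ
        refine SemidirectProduct.ext ?_ rfl
        show u (σ * τ) = u σ * α' σ (u τ)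
        rw [hu3, ha']
        group }
  have hc : ∀ τ, (SemidirectProduct.inl : P →* P ⋊[α'] T).comp (α τ).toMonoidHom =
      (MulAut.conj (q τ)).toMonoidHom.comp SemidirectProduct.inl := by
    intro τ
    apply MonoidHom.ext
    intro x
    show (SemidirectProduct.inl (α τ x) : P ⋊[α'] T) = q τ * SemidirectProduct.inl x * (q τ)⁻¹
    rw [eq_mul_inv_iff_mul_eq]
    refine SemidirectProduct.ext ?_ ?_
    · show α τ x * α' 1 (u τ) = u τ * α' τ x
      rw [map_one, MulAut.one_apply, ha']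
      group
    · show 1 * τ = τ * 1
      rw [one_mul, mul_one]
  refine hC.base.of_injective _ _ (SemidirectProduct.lift SemidirectProduct.inl q hc) ?_ hP
  rw [injective_iff_map_eq_one]
  intro p hp
  have e1 : (SemidirectProduct.inl p.left : P ⋊[α'] T) * q p.right = 1 := hp
  have e2 : p.right = 1 := by
    have := congrArg SemidirectProduct.right e1
    have e3 : 1 * p.right = 1 := this
    rwa [one_mul] at e3
  rw [e2, map_one, mul_one] at e1
  refine SemidirectProduct.ext ?_ e2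
  exact SemidirectProduct.inl_injective (e1.trans (map_one _).symm)

end step

end Pool.Agent.U89.TK
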