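import Pool.Agent.Y417.FJ.Am
import Pool.Agent.Y961.FJ.Perm
import Pool.Agent.Y529.FJ.Ext

/-!
# Free products of two groups and groups which act on them

Owner helper89.
-/

set_option autoImplicit false

namespace Pool.Agent.U89.TK

open Pool.Agent.Y462.SS (Wr Closed)
open Pool.Agent.Y110.FJ
open Pool.Agent.Y961.FJ (conj_inr)

/-- `P` is the free product of its subgroups `K` and `B` -/
structure FP2 {P : Type} [Group P] (K B : Subgroup P) : Prop where
  gen : K ⊔ B = ⊤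
  univ : ∀ (H : Type) [Group H] (f : K →* H) (g : B →* H), ∃ φ : P →* H,
    (∀ k : K, φ k = f k) ∧ ∀ b : B, φ b = g b

theorem FP2.ext {P : Type} [Group P] {K B : Subgroup P} (h : FP2 K B) {H : Type} [Group H]
    {φ ψ : P →* H} (h1 : ∀ k ∈ K, φ k = ψ k) (h2 : ∀ b ∈ B, φ b = ψ b) (x : P) : φ x = ψ x := by
  have h3 : K ⊔ B ≤ φ.eqLocus ψ := sup_le h1 h2
  rw [h.gen] at h3
  exact h3 (Subgroup.mem_top x)

/-- an element of `K` which maps a nontrivial element of `B` into `B` is trivial -/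
theorem FP2.uniq {P : Type} [Group P] {K B : Subgroup P} (h : FP2 K B) {z b : P} (hz : z ∈ K)
    (hb : b ∈ B) (hb1 : b ≠ 1) (hzb : z * b * z⁻¹ ∈ B) : z = 1 := by
  classical
  let f : K →* Wr K B :=
    { toFun := fun k => ⟨fun _ => 1, Equiv.mulLeft k⟩
      map_one' := Wr.ext rfl (by ext x; simp)
      map_mul' := fun a b => Wr.ext (by funext x; simp) (by ext x; simp) }
  let g : B →* Wr K B :=
    { toFun := fun b => ⟨fun x => if x = 1 then b else 1, 1⟩
      map_one' := Wr.ext (by funext x; simp) rfl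
      map_mul' := fun a b => Wr.ext (by
        funext x
        rw [Wr.mul_s]
        by_cases hx : x = 1
        · simp [hx]
        · simp [hx]) rfl }
  obtain ⟨φ, hφ1, hφ2⟩ := h.univ (Wr K B) f g
  have e1 : φ z = f ⟨z, hz⟩ := hφ1 ⟨z, hz⟩
  have e2 : φ b = g ⟨b, hb⟩ := hφ2 ⟨b, hb⟩
  have e3 : φ (z * b * z⁻¹) = g ⟨_, hzb⟩ := hφ2 ⟨_, hzb⟩
  have e4 : f ⟨z, hz⟩ * g ⟨b, hb⟩ = g ⟨_, hzb⟩ * f ⟨z, hz⟩ := by
    rw [← e1, ← e2, ← e3, ← map_mul, ← map_mul]
    congr 1
    group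
  have e5 := congrFun (congrArg Wr.s e4) 1
  rw [Wr.mul_s, Wr.mul_s] at e5
  have e6 : (⟨b, hb⟩ : B) = if (⟨z, hz⟩ : K) = 1 then ⟨_, hzb⟩ else 1 := by
    have l : (f ⟨z, hz⟩).s ((g ⟨b, hb⟩).p 1) * (g ⟨b, hb⟩).s 1 = ⟨b, hb⟩ := by
      show 1 * (if (1 : K) = 1 then (⟨b, hb⟩ : B) else 1) = _
      rw [if_pos rfl, one_mul]
    have r : (g ⟨_, hzb⟩).s ((f ⟨z, hz⟩).p 1) * (f ⟨z, hz⟩).s 1 =
        if (⟨z, hz⟩ : K) = 1 then ⟨_, hzb⟩ else 1 := by
      show (if (⟨z, hz⟩ : K) * 1 = 1 then (⟨_, hzb⟩ : B) else 1) * 1 = _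
      rw [mul_one, mul_one]
    rw [← l, ← r, e5]
  by_cases hz1 : (⟨z, hz⟩ : K) = 1
  · exact congrArg Subtype.val hz1
  · rw [if_neg hz1] at e6
    exact absurd (congrArg Subtype.val e6) hb1

/-- the restriction of an action to an invariant subgroup -/
def res {P T : Type} [Group P] [Group T] {K : Subgroup P} (β : T →* MulAut P)
    (hK : ∀ τ, ∀ k ∈ K, β τ k ∈ K) : T →* MulAut K where
  toFun τ :=
    { toFun := fun k => ⟨β τ k, hK τ k k.2⟩
      invFun := fun k => ⟨β τ⁻¹ k, hK τ⁻¹ k k.2⟩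
      left_inv := fun k => Subtype.ext (by
        show β τ⁻¹ (β τ k) = k
        rw [← MulAut.mul_apply, ← map_mul, inv_mul_cancel, map_one]
        rfl)
      right_inv := fun k => Subtype.ext (by
        show β τ (β τ⁻¹ k) = k
        rw [← MulAut.mul_apply, ← map_mul, mul_inv_cancel, map_one]
        rfl)
      map_mul' := fun a b => Subtype.ext (map_mul (β τ) (a : P) b) }
  map_one' := by
    ext k
    show β 1 k = k
    rw [map_one]
    rfl
  map_mul' σ τ := by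
    ext k
    show β (σ * τ) k = β σ (β τ k)
    rw [map_mul]
    rfl

theorem res_coe {P T : Type} [Group P] [Group T] {K : Subgroup P} (β : T →* MulAut P)
    (hK : ∀ τ, ∀ k ∈ K, β τ k ∈ K) (τ : T) (k : K) : ((res β hK τ k : K) : P) = β τ k := rfl

/-- `P ⋊ T` is an amalgamated product if `T` preserves both factors -/
theorem amal {C : ∀ (G : Type) [Group G], Prop} (hC : ClosedE C) {P T : Type} [Group P] [Group T]
    {K B : Subgroup P} (h : FP2 K B) (β : T →* MulAut P) (hK : ∀ τ, ∀ k ∈ K, β τ k ∈ K)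
    (hB : ∀ τ, ∀ b ∈ B, β τ b ∈ B) (Θ : Subgroup (MulAut B)) (hΘ : ∀ τ, res β hB τ ∈ Θ)
    (h1 : C (K ⋊[res β hK] T)) (h2 : C (B ⋊[Θ.subtype] Θ)) : C (P ⋊[β] T) := by
  have hAM : S_AM := Pool.Agent.Y417.FJ.t_am (Pool.Agent.Y961.FJ.t_perm Pool.Agent.Y529.FJ.t_ext)
  let A' : Subgroup (P ⋊[β] T) :=
    { carrier := {p | p.left ∈ K}
      one_mem' := K.one_mem
      mul_mem' := by
        intro p q hp hq
        show p.left * β p.right q.left ∈ K
        exact K.mul_mem hp (hK _ _ hq)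
      inv_mem' := by
        intro p hp
        show β p.right⁻¹ p.left⁻¹ ∈ K
        exact hK _ _ (K.inv_mem hp) }
  let B' : Subgroup (P ⋊[β] T) :=
    { carrier := {p | p.left ∈ B}
      one_mem' := B.one_mem
      mul_mem' := by
        intro p q hp hq
        show p.left * β p.right q.left ∈ B
        exact B.mul_mem hp (hB _ _ hq)
      inv_mem' := by
        intro p hp
        show β p.right⁻¹ p.left⁻¹ ∈ B
        exact hB _ _ (B.inv_mem hp) }
  let T' : Subgroup (P ⋊[β] T) := (SemidirectProduct.inr : T →* P ⋊[β] T).range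
  have hTA : ∀ τ : T, (SemidirectProduct.inr τ : P ⋊[β] T) ∈ A' := fun τ => K.one_mem
  have hTB : ∀ τ : T, (SemidirectProduct.inr τ : P ⋊[β] T) ∈ B' := fun τ => B.one_mem
  have hdec : ∀ p : P ⋊[β] T, p = SemidirectProduct.inl p.left * SemidirectProduct.inr p.right :=
    fun p => (SemidirectProduct.inl_left_mul_inr_right p).symm
  obtain ⟨ρ, hρ1, hρ2⟩ := h.univ K (MonoidHom.id K) 1
  obtain ⟨σ, hσ1, hσ2⟩ := h.univ B 1 (MonoidHom.id B)
  have hAmg : Amg A' B' T' := by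
    refine ⟨?_, ?_, ?_, ?_⟩
    · rintro _ ⟨τ, rfl⟩
      exact hTA τ
    · rintro _ ⟨τ, rfl⟩
      exact hTB τ
    · rw [eq_top_iff]
      intro p _
      have hl : ∀ x : P, (SemidirectProduct.inl x : P ⋊[β] T) ∈ A' ⊔ B' := by
        intro x
        have h3 : K ⊔ B ≤ (A' ⊔ B').comap (SemidirectProduct.inl : P →* P ⋊[β] T) := by
          refine sup_le (fun k hk => ?_) (fun b hb => ?_)
          · exact (le_sup_left : A' ≤ A' ⊔ B') hk
          · exact (le_sup_right : B' ≤ A' ⊔ B') hb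
        rw [h.gen] at h3
        exact h3 (Subgroup.mem_top x)
      rw [hdec p]
      exact mul_mem (hl _) ((le_sup_left : A' ≤ A' ⊔ B') (hTA _))
    · intro H _ f g hfg
      let iK : K →* A' := (SemidirectProduct.inl.comp K.subtype).codRestrict A' (fun k => k.2)
      let iB : B →* B' := (SemidirectProduct.inl.comp B.subtype).codRestrict B' (fun b => b.2)
      let iT : T →* A' := SemidirectProduct.inr.codRestrict A' hTA
      obtain ⟨φ, hφ1, hφ2⟩ := h.univ H (f.comp iK) (g.comp iB)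
      have hT : ∀ τ : T, f (iT τ) = g ⟨SemidirectProduct.inr τ, hTB τ⟩ :=
        fun τ => hfg _ ⟨τ, rfl⟩
      have hc : ∀ τ : T, φ.comp (β τ).toMonoidHom =
          (MulAut.conj ((f.comp iT) τ)).toMonoidHom.comp φ := by
        intro τ
        apply MonoidHom.ext
        refine h.ext (fun k hk => ?_) (fun b hb => ?_)
        · show φ (β τ k) = f (iT τ) * φ k * (f (iT τ))⁻¹
          have e1 : φ (β τ k) = f (iK ⟨β τ k, hK τ k hk⟩) := hφ1 ⟨β τ k, hK τ k hk⟩
          have e2 : φ k = f (iK ⟨k, hk⟩) := hφ1 ⟨k, hk⟩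
          rw [e1, e2, ← map_mul, ← map_inv, ← map_mul]
          congr 1
          exact Subtype.ext (conj_inr β τ k).symm
        · show φ (β τ b) = f (iT τ) * φ b * (f (iT τ))⁻¹
          have e1 : φ (β τ b) = g (iB ⟨β τ b, hB τ b hb⟩) := hφ2 ⟨β τ b, hB τ b hb⟩
          have e2 : φ b = g (iB ⟨b, hb⟩) := hφ2 ⟨b, hb⟩
          rw [e1, e2, hT, ← map_mul, ← map_inv, ← map_mul]
          congr 1
          exact Subtype.ext (conj_inr β τ b).symm
      refine ⟨SemidirectProduct.lift φ (f.comp iT) hc, fun a => ?_, fun b => ?_⟩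
      · have e0 : a = iK ⟨a.1.left, a.2⟩ * iT a.1.right := Subtype.ext (hdec a.1)
        have e1 : φ a.1.left = f (iK ⟨a.1.left, a.2⟩) := hφ1 ⟨a.1.left, a.2⟩
        have e2 : (SemidirectProduct.lift φ (f.comp iT) hc) (a : P ⋊[β] T) =
            φ a.1.left * f (iT a.1.right) := rfl
        rw [e2, e1, ← map_mul, ← e0]
      · have e0 : b = iB ⟨b.1.left, b.2⟩ * ⟨SemidirectProduct.inr b.1.right, hTB _⟩ :=
          Subtype.ext (hdec b.1)
        have e1 : φ b.1.left = g (iB ⟨b.1.left, b.2⟩) := hφ2 ⟨b.1.left, b.2⟩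
        have e2 : (SemidirectProduct.lift φ (f.comp iT) hc) (b : P ⋊[β] T) =
            φ b.1.left * f (iT b.1.right) := rfl
        rw [e2, e1, hT, ← map_mul, ← e0]
  have hρ : ∀ τ x, ρ (β τ x) = res β hK τ (ρ x) := by
    intro τ
    refine h.ext (φ := ρ.comp (β τ).toMonoidHom) (ψ := (res β hK τ).toMonoidHom.comp ρ)
      (fun k hk => ?_) (fun b hb => ?_)
    · show ρ (β τ k) = res β hK τ (ρ k)
      have e1 : ρ (β τ k) = ⟨β τ k, hK τ k hk⟩ := hρ1 ⟨β τ k, hK τ k hk⟩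
      have e2 : ρ k = ⟨k, hk⟩ := hρ1 ⟨k, hk⟩
      rw [e1, e2]
      rfl
    · show ρ (β τ b) = res β hK τ (ρ b)
      have e1 : ρ (β τ b) = 1 := hρ2 ⟨β τ b, hB τ b hb⟩
      have e2 : ρ b = 1 := hρ2 ⟨b, hb⟩
      rw [e1, e2, map_one]
  have hσ : ∀ τ x, σ (β τ x) = res β hB τ (σ x) := by
    intro τ
    refine h.ext (φ := σ.comp (β τ).toMonoidHom) (ψ := (res β hB τ).toMonoidHom.comp σ)
      (fun k hk => ?_) (fun b hb => ?_)
    · show σ (β τ k) = res β hB τ (σ k)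
      have e1 : σ (β τ k) = 1 := hσ1 ⟨β τ k, hK τ k hk⟩
      have e2 : σ k = 1 := hσ1 ⟨k, hk⟩
      rw [e1, e2, map_one]
    · show σ (β τ b) = res β hB τ (σ b)
      have e1 : σ (β τ b) = ⟨β τ b, hB τ b hb⟩ := hσ2 ⟨β τ b, hB τ b hb⟩
      have e2 : σ b = ⟨b, hb⟩ := hσ2 ⟨b, hb⟩
      rw [e1, e2]
      rfl
  let F₁ : P ⋊[β] T →* K ⋊[res β hK] T := SemidirectProduct.map ρ (MonoidHom.id T) (by
    intro τ
    exact MonoidHom.ext fun x => hρ τ x)
  let F₂ : P ⋊[β] T →* B ⋊[Θ.subtype] Θ :=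
    SemidirectProduct.map σ ((res β hB).codRestrict Θ hΘ) (by
      intro τ
      exact MonoidHom.ext fun x => hσ τ x)
  refine hAM C hC (P ⋊[β] T) ((K ⋊[res β hK] T) × (B ⋊[Θ.subtype] Θ))
    A' B' T' hAmg (F₁.prod F₂) ?_ ?_ (hC.base.prod _ _ h1 h2)
  · intro a ha h3
    have h4 : F₁ a = 1 := congrArg Prod.fst h3
    have h5 : ρ a.left = 1 := congrArg SemidirectProduct.left h4
    have h6 : a.right = 1 := congrArg SemidirectProduct.right h4
    have h7 : ρ a.left = ⟨a.left, ha⟩ := hρ1 ⟨a.left, ha⟩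
    rw [h7] at h5
    exact SemidirectProduct.ext (congrArg Subtype.val h5) h6
  · intro b hb h3
    have h4 : F₁ b = 1 := congrArg Prod.fst h3
    have h4' : F₂ b = 1 := congrArg Prod.snd h3
    have h5 : σ b.left = 1 := congrArg SemidirectProduct.left h4'
    have h6 : b.right = 1 := congrArg SemidirectProduct.right h4
    have h7 : σ b.left = ⟨b.left, hb⟩ := hσ2 ⟨b.left, hb⟩
    rw [h7] at h5
    exact SemidirectProduct.ext (congrArg Subtype.val h5) h6

end Pool.Agent.U89.TK
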